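import Pool.Agent.X298.EP.Main

/-!
# Bloch–Kato for spinor `L`-values: the left side from finitely many Hecke eigenvalues, with a checkable criterion

In the problem the critical points `t` correspond to the points `t' = t - (j + 2k - 3)/2 = 1 + s ≥ 5/2` of the `L`-function
`L(s, F, spin)` in the analytic normalisation, whose Euler factors at **all** primes are `∏_{i=1}^4 (1 - a_{p,i} p^{-s})⁻¹`,
`|a_{p,i}| = 1` (Weissauer). Let `E` be the coefficient field, `a_σ` the Satake parameters of the conjugates of `F` (`σ : E → ℂ`),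
`L_σ` the `L`-values at `t'`, `Ω_σ` the components of the period, and suppose that `L(M, t) / Ω(t) = e ∈ E`, that is
`L_σ = σ(e) Ω_σ` for all `σ` (Deligne's conjecture, which is implicit in the problem), and `D e` integral. For `X ≥ 1` let
`P_σ(X)` be the product of the Euler factors at the primes `p ≤ X`. We show (with `n = 4` in the case of the problem):

* `|L_σ - P_σ(X)| ≤ 4 n X^{1-t'} |P_σ(X)|` as soon as `2 n X^{1-t'} ≤ 1`;
* call `X` *good* if moreover `D · 4 n X^{1-t'} |P_σ(X)| < |Ω_σ| / 2` for all `σ` (a condition which can be verified from the eigenvalues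
  at the primes `p ≤ X`); all large `X` are good;
* **if `X` is good, then `D e` is the only `y ∈ 𝓞_E` with `|D P_σ(X) - σ(y) Ω_σ| < |Ω_σ| / 2` for all `σ`**; so for every prime `𝔮` of `E`
  the valuation of `L(M, t) / Ω(t)`, the left side of Q1, is read from the Hecke eigenvalues at the primes `p ≤ X`: it is `c` if and only
  if some `y ∈ 𝓞_E` satisfies these finitely many inequalities and has the valuation of `D` times `c`.
-/

set_option autoImplicit false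

open Filter Topology
open NumberField IsDedekindDomain

namespace Pool.Agent.Results.MP_78858f_nt.FinitelyManyEigenvalues

open Pool.Agent.X298.EP

/-- `X ≥ 1` is good: `2 n X^{1-t} ≤ 1` and `D · 4 n X^{1-t} |P_σ(X)| < |Ω_σ| / 2` for all `σ`. -/
def Good {E : Type} [Field E] {n : ℕ} (a : (E →+* ℂ) → ℕ → Fin n → ℂ) (t : ℝ) (Ω : (E →+* ℂ) → ℂ) (D X : ℕ) : Prop :=
  1 ≤ X ∧ 2 * n * (X : ℝ) ^ (1 - t) ≤ 1 ∧
    ∀ σ, (D : ℝ) * (4 * n * (X : ℝ) ^ (1 - t) * ‖part (a σ) t X‖) < ‖Ω σ‖ / 2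

/-- `|D P_σ(X) - σ(y) Ω_σ| < |Ω_σ| / 2` for all `σ` -/
def Near {E : Type} [Field E] {n : ℕ} (a : (E →+* ℂ) → ℕ → Fin n → ℂ) (t : ℝ) (Ω : (E →+* ℂ) → ℂ)
    (D X : ℕ) (y : 𝓞 E) : Prop :=
  ∀ σ : E →+* ℂ, ‖D * part (a σ) t X - σ (y : E) * Ω σ‖ < ‖Ω σ‖ / 2

/-- **The algebraic number `L(M, t) / Ω(t)` from finitely many Hecke eigenvalues.** -/
theorem result {E : Type} [Field E] [NumberField E] (n : ℕ) (a : (E →+* ℂ) → ℕ → Fin n → ℂ)
    (ha : ∀ σ p i, ‖a σ p i‖ ≤ 1) (t : ℝ) (ht : 2 ≤ t) (L Ω : (E →+* ℂ) → ℂ)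
    (hL : ∀ σ, Tendsto (part (a σ) t) atTop (𝓝 (L σ))) (hΩ : ∀ σ, Ω σ ≠ 0)
    (e : E) (he : ∀ σ, L σ = σ e * Ω σ) (D : ℕ) (hD : 1 ≤ D) (x : 𝓞 E) (hx : (x : E) = D * e) :
    (∀ X : ℕ, 1 ≤ X → 2 * n * (X : ℝ) ^ (1 - t) ≤ 1 →
      ∀ σ, ‖L σ - part (a σ) t X‖ ≤ 4 * n * (X : ℝ) ^ (1 - t) * ‖part (a σ) t X‖) ∧
    (∀ᶠ X : ℕ in atTop, Good a t Ω D X) ∧
    (∀ X : ℕ, Good a t Ω D X → ∀ y : 𝓞 E, Near a t Ω D X y ↔ (y : E) = D * e) ∧
    (∀ X : ℕ, Good a t Ω D X → ∀ (v : HeightOneSpectrum (𝓞 E)) (c : WithZero (Multiplicative ℤ)),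
      v.valuation E e = c ↔ ∃ y : 𝓞 E, Near a t Ω D X y ∧ v.valuation E (y : E) = v.valuation E (D : E) * c) := by
  have hDL : ∀ X : ℕ, Good a t Ω D X → ∀ σ, ‖D * part (a σ) t X - σ (x : E) * Ω σ‖ < ‖Ω σ‖ / 2 := by
    rintro X ⟨h1, h2, h3⟩ σ
    have h4 := limit_bound (ha σ) ht (hL σ) h1 h2
    have e1 : D * part (a σ) t X - σ (x : E) * Ω σ = -(D * (L σ - part (a σ) t X)) := by
      rw [hx, he σ, map_mul, map_natCast]
      ring
    rw [e1, norm_neg, norm_mul, Complex.norm_natCast]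
    exact lt_of_le_of_lt (mul_le_mul_of_nonneg_left h4 (Nat.cast_nonneg D)) (h3 σ)
  have key : ∀ X : ℕ, Good a t Ω D X → ∀ y : 𝓞 E, Near a t Ω D X y ↔ (y : E) = D * e := by
    intro X hX y
    constructor
    · intro hy
      have h1 : y - x = 0 := by
        apply Pool.Agent.X298.ST.int_zero
        intro σ
        have hΩ0 : 0 < ‖Ω σ‖ := norm_pos_iff.mpr (hΩ σ)
        have h2 := hy σ
        have h3 := hDL X hX σ
        have e2 : σ ((y - x : 𝓞 E) : E) * Ω σ =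
            (D * part (a σ) t X - σ (x : E) * Ω σ) - (D * part (a σ) t X - σ (y : E) * Ω σ) := by
          push_cast
          rw [map_sub]
          ring
        have h4 : ‖σ ((y - x : 𝓞 E) : E) * Ω σ‖ < ‖Ω σ‖ := by
          rw [e2]
          refine (norm_sub_le _ _).trans_lt ?_
          linarith
        rw [norm_mul] at h4
        exact (mul_lt_iff_lt_one_left hΩ0).mp h4
      rw [sub_eq_zero.mp h1, hx]
    · intro hy σ
      rw [hy, ← hx]
      exact hDL X hX σ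
  refine ⟨fun X h1 h2 σ => limit_bound (ha σ) ht (hL σ) h1 h2, ?_, key, fun X hX v c => ?_⟩
  · have h1 : ∀ σ : E →+* ℂ, ∀ᶠ X : ℕ in atTop, 2 * n * (X : ℝ) ^ (1 - t) ≤ 1 ∧
        (D : ℝ) * (4 * n * (X : ℝ) ^ (1 - t) * ‖part (a σ) t X‖) < ‖Ω σ‖ / 2 :=
      fun σ => cond_eventually ht (hL σ) D (hΩ σ)
    have h2 := eventually_all.mpr h1
    filter_upwards [h2, eventually_ge_atTop 1] with X h3 h4
    obtain ⟨σ₀⟩ : Nonempty (E →+* ℂ) := inferInstance
    exact ⟨h4, (h3 σ₀).1, fun σ => (h3 σ).2⟩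
  · have hDE : (D : E) ≠ 0 := by exact_mod_cast (by omega : D ≠ 0)
    have hvD : v.valuation E (D : E) ≠ 0 := (Valuation.ne_zero_iff _).mpr hDE
    constructor
    · intro h
      exact ⟨x, (key X hX x).mpr hx, by rw [hx, map_mul, h]⟩
    · rintro ⟨y, h1, h2⟩
      rw [(key X hX y).mp h1, map_mul] at h2
      exact mul_left_cancel₀ hvD h2

end Pool.Agent.Results.MP_78858f_nt.FinitelyManyEigenvalues
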